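import Pool.Agent.U237.NF.Lite

/-!
# Project NF, package F: from the core theorem to local Fourier uniformity
-/

set_option autoImplicit false

open Finset Filter Topology

namespace Pool.Agent.U147.NF.F

open Pool.Agent.H807R2.Dav (ee norm_ee ee_add)
open Pool.Agent.W24.Katai (Mul1)
open Pool.Agent.U237.NF.Lite

/-- the sum over the window `k` -/
noncomputable def SW (h : ℕ → ℂ) (H s : ℕ) (al : ℕ → ℝ) (k : ℕ) : ℂ :=
  ∑ i ∈ range H, h (k * H - s + i) * ee (((k * H - s + i : ℕ) : ℝ) * al k)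

/-- the sum over a good window -/
lemma window (h : ℕ → ℂ) {H s N k : ℕ} (hs : s < H) (al : ℕ → ℝ) (hk : 1 ≤ k)
    (hN : (k + 1) * H ≤ N + s) :
    ∑ n ∈ (Ioc 0 N).filter (fun n => kx H s n = k), h n * ee ((n : ℝ) * al k) = SW h H s al k := by
  have hH : 0 < H := by omega
  have h1 : H ≤ k * H := Nat.le_mul_of_pos_left H hk
  have h2 : (k + 1) * H = k * H + H := by ring
  rw [h2] at hN
  unfold SW
  apply Finset.sum_nbij' (fun n => n - (k * H - s)) (fun i => k * H - s + i)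
  · intro n hn
    rw [Finset.mem_filter, Finset.mem_Ioc] at hn
    have h3 : (n + s) / H = k := hn.2
    rw [Nat.div_eq_iff (by omega)] at h3
    rw [Finset.mem_range]
    omega
  · intro i hi
    rw [Finset.mem_range] at hi
    rw [Finset.mem_filter, Finset.mem_Ioc]
    refine ⟨by omega, ?_⟩
    show (k * H - s + i + s) / H = k
    rw [Nat.div_eq_iff (by omega)]
    omega
  · intro n hn
    rw [Finset.mem_filter, Finset.mem_Ioc] at hn
    have h3 : (n + s) / H = k := hn.2
    rw [Nat.div_eq_iff (by omega)] at h3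
    show k * H - s + (n - (k * H - s)) = n
    omega
  · intro i hi
    show k * H - s + i - (k * H - s) = i
    omega
  · intro n hn
    rw [Finset.mem_filter, Finset.mem_Ioc] at hn
    have h3 : (n + s) / H = k := hn.2
    rw [Nat.div_eq_iff (by omega)] at h3
    have h4 : k * H - s + (n - (k * H - s)) = n := by omega
    rw [h4]

/-- the sum of `h * Fw` as a sum over windows -/
lemma sum_Fw (h : ℕ → ℂ) {H s N : ℕ} (hs : s < H) (al : ℕ → ℝ) (om : ℕ → ℂ)
    (hom : ∀ k, om k ≠ 0 → 1 ≤ k ∧ (k + 1) * H ≤ N + s) :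
    ∑ n ∈ Ioc 0 N, h n * Fw H s om al n = ∑ k ∈ range ((N + s) / H + 1), om k * SW h H s al k := by
  rw [← Finset.sum_fiberwise_of_maps_to (s := Ioc 0 N) (t := range ((N + s) / H + 1)) (g := kx H s)]
  · refine Finset.sum_congr rfl (fun k _ => ?_)
    have h1 : ∑ n ∈ (Ioc 0 N).filter (fun n => kx H s n = k), h n * Fw H s om al n =
        om k * ∑ n ∈ (Ioc 0 N).filter (fun n => kx H s n = k), h n * ee ((n : ℝ) * al k) := by
      rw [Finset.mul_sum]
      refine Finset.sum_congr rfl (fun n hn => ?_)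
      rw [Finset.mem_filter] at hn
      unfold Fw
      rw [hn.2]
      ring
    rw [h1]
    by_cases h0 : om k = 0
    · rw [h0, zero_mul, zero_mul]
    · rw [window h hs al (hom k h0).1 (hom k h0).2]
  · intro n hn
    rw [Finset.mem_Ioc] at hn
    rw [Finset.mem_range]
    have : kx H s n ≤ (N + s) / H := Nat.div_le_div_right (by omega)
    omega

lemma norm_SW {h : ℕ → ℂ} (hh : ∀ n, ‖h n‖ ≤ 1) (H s : ℕ) (al : ℕ → ℝ) (k : ℕ) : ‖SW h H s al k‖ ≤ H := by
  unfold SW
  refine (norm_sum_le _ _).trans ?_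
  calc ∑ i ∈ range H, ‖h (k * H - s + i) * ee (((k * H - s + i : ℕ) : ℝ) * al k)‖ ≤ ∑ _i ∈ range H, (1:ℝ) := by
        refine Finset.sum_le_sum (fun i _ => ?_)
        rw [norm_mul, norm_ee, mul_one]
        exact hh _
    _ = H := by simp

lemma SW_shift (h : ℕ → ℂ) (H s : ℕ) (al : ℕ → ℝ) (k : ℕ) :
    ‖SW h H s al k‖ = ‖∑ i ∈ range H, h (k * H - s + i) * ee ((i : ℝ) * al k)‖ := by
  have : SW h H s al k = ee (((k * H - s : ℕ) : ℝ) * al k) * ∑ i ∈ range H, h (k * H - s + i) * ee ((i : ℝ) * al k) := by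
    unfold SW
    rw [Finset.mul_sum]
    refine Finset.sum_congr rfl (fun i _ => ?_)
    have : (((k * H - s + i : ℕ) : ℝ) * al k) = ((k * H - s : ℕ) : ℝ) * al k + (i : ℝ) * al k := by
      push_cast; ring
    rw [this, ee_add]
    ring
  rw [this, norm_mul, norm_ee, one_mul]

open Classical in
/-- the bound for one shift -/
lemma shift_bound {h : ℕ → ℂ} (hh : ∀ n, ‖h n‖ ≤ 1) {ε : ℝ} (hε : 0 < ε) {H s N : ℕ} (hs : s < H)
    (a : ℕ → ℝ)
    (hcore : ∀ (om : ℕ → ℂ) (al : ℕ → ℝ), (∀ k, ‖om k‖ ≤ 1) → om 0 = 0 → (∀ k, ∃ n, al k = a n) →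
      (∀ k, om k ≠ 0 → ε * H ≤ ‖SW h H s al k‖) →
      ‖∑ n ∈ Ioc 0 N, h n * Fw H s om al n‖ ≤ ε * N) :
    ∑ n ∈ (Ico 1 N).filter (fun n => H ∣ n + s), ‖∑ i ∈ range H, h (n + i) * ee ((i : ℝ) * a n)‖ ≤
      ε * N + (ε * (N + H) + H) := by
  have hH : 0 < H := by omega
  have hH' : (0:ℝ) < H := by exact_mod_cast hH
  set al : ℕ → ℝ := fun k => a (k * H - s) with hal
  set Q := (N + s) / H with hQ
  set om : ℕ → ℂ := fun k => if (1 ≤ k ∧ (k + 1) * H ≤ N + s) ∧ ε * H ≤ ‖SW h H s al k‖ then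
    (starRingEnd ℂ) (SW h H s al k) / (‖SW h H s al k‖ : ℂ) else 0 with hom
  have homk : ∀ k, om k ≠ 0 → (1 ≤ k ∧ (k + 1) * H ≤ N + s) ∧ ε * H ≤ ‖SW h H s al k‖ := by
    intro k hk
    by_contra hc
    exact hk (by simp only [hom]; rw [if_neg hc])
  have h1 : ‖∑ n ∈ Ioc 0 N, h n * Fw H s om al n‖ ≤ ε * N := by
    apply hcore om al
    · intro k
      simp only [hom]
      split_ifs with hc
      · have : 0 < ‖SW h H s al k‖ := lt_of_lt_of_le (by positivity) hc.2
        rw [norm_div, RCLike.norm_conj, Complex.norm_real, norm_norm, div_self this.ne']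
      · simp
    · simp only [hom]
      rw [if_neg]
      rintro ⟨⟨h2, _⟩, _⟩
      omega
    · exact fun k => ⟨_, rfl⟩
    · exact fun k hk => (homk k hk).2
  rw [sum_Fw h hs al om (fun k hk => (homk k hk).1)] at h1
  have h2 : ∀ k, om k * SW h H s al k = ((if (1 ≤ k ∧ (k + 1) * H ≤ N + s) ∧ ε * H ≤ ‖SW h H s al k‖ then
      ‖SW h H s al k‖ else 0 : ℝ) : ℂ) := by
    intro k
    simp only [hom]
    split_ifs with hc
    · have : 0 < ‖SW h H s al k‖ := lt_of_lt_of_le (by positivity) hc.2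
      have h3 : ((‖SW h H s al k‖ : ℝ) : ℂ) ≠ 0 := by exact_mod_cast this.ne'
      rw [div_mul_eq_mul_div, mul_comm ((starRingEnd ℂ) _), Complex.mul_conj, Complex.normSq_eq_norm_sq]
      push_cast
      field_simp
    · simp
  rw [Finset.sum_congr rfl (fun k _ => h2 k), ← Complex.ofReal_sum, Complex.norm_real, Real.norm_eq_abs,
    abs_of_nonneg (Finset.sum_nonneg (fun k _ => by split_ifs <;> positivity))] at h1
  -- the left side as a sum over windows
  have h4 : ∑ n ∈ (Ico 1 N).filter (fun n => H ∣ n + s), ‖∑ i ∈ range H, h (n + i) * ee ((i : ℝ) * a n)‖ ≤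
      ∑ k ∈ Icc 1 Q, ‖SW h H s al k‖ := by
    have h5 : ∀ n ∈ (Ico 1 N).filter (fun n => H ∣ n + s), kx H s n * H - s = n ∧ kx H s n ∈ Icc 1 Q := by
      intro n hn
      rw [Finset.mem_filter, Finset.mem_Ico] at hn
      have h6 : (n + s) / H * H = n + s := Nat.div_mul_cancel hn.2
      refine ⟨by unfold kx; omega, ?_⟩
      rw [Finset.mem_Icc]
      refine ⟨?_, Nat.div_le_div_right (by omega)⟩
      unfold kx
      rcases Nat.eq_zero_or_pos ((n + s) / H) with h8 | h8
      · rw [h8] at h6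
        omega
      · exact h8
    calc ∑ n ∈ (Ico 1 N).filter (fun n => H ∣ n + s), ‖∑ i ∈ range H, h (n + i) * ee ((i : ℝ) * a n)‖
        = ∑ n ∈ (Ico 1 N).filter (fun n => H ∣ n + s), ‖SW h H s al (kx H s n)‖ := by
          refine Finset.sum_congr rfl (fun n hn => ?_)
          rw [SW_shift]
          simp only [hal]
          rw [(h5 n hn).1]
      _ = ∑ k ∈ ((Ico 1 N).filter (fun n => H ∣ n + s)).image (kx H s), ‖SW h H s al k‖ := by
          rw [Finset.sum_image]
          intro x hx y hy hxy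
          have hxy' : kx H s x = kx H s y := hxy
          rw [← (h5 x hx).1, ← (h5 y hy).1, hxy']
      _ ≤ ∑ k ∈ Icc 1 Q, ‖SW h H s al k‖ := by
          apply Finset.sum_le_sum_of_subset_of_nonneg
          · intro k hk
            rw [Finset.mem_image] at hk
            obtain ⟨n, hn, rfl⟩ := hk
            exact (h5 n hn).2
          · intro _ _ _; positivity
  refine h4.trans ?_
  have h5 : ∀ k ∈ Icc 1 Q, ‖SW h H s al k‖ ≤ (if (1 ≤ k ∧ (k + 1) * H ≤ N + s) ∧ ε * H ≤ ‖SW h H s al k‖ then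
      ‖SW h H s al k‖ else 0) + (ε * H + if k = Q then (H:ℝ) else 0) := by
    intro k hk
    rw [Finset.mem_Icc] at hk
    have h6 : (0:ℝ) ≤ ε * H := by positivity
    have h7 : (0:ℝ) ≤ if k = Q then (H:ℝ) else 0 := by split_ifs <;> positivity
    by_cases hc : (1 ≤ k ∧ (k + 1) * H ≤ N + s) ∧ ε * H ≤ ‖SW h H s al k‖
    · rw [if_pos hc]; linarith
    · rw [if_neg hc]
      by_cases hk2 : (k + 1) * H ≤ N + s
      · have h8 : ¬ ε * H ≤ ‖SW h H s al k‖ := fun h9 => hc ⟨⟨hk.1, hk2⟩, h9⟩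
        push Not at h8
        linarith
      · have h8 : k = Q := by
          push Not at hk2
          have : (N + s) / H < k + 1 := (Nat.div_lt_iff_lt_mul hH).mpr hk2
          omega
        rw [if_pos h8]
        have := norm_SW hh H s al k
        linarith
  refine (Finset.sum_le_sum h5).trans ?_
  rw [Finset.sum_add_distrib, Finset.sum_add_distrib, Finset.sum_const, Finset.sum_ite_eq', nsmul_eq_mul]
  have h6 : ∑ k ∈ Icc 1 Q, (if (1 ≤ k ∧ (k + 1) * H ≤ N + s) ∧ ε * H ≤ ‖SW h H s al k‖ then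
      ‖SW h H s al k‖ else 0) ≤ ε * N := by
    refine le_trans ?_ h1
    apply Finset.sum_le_sum_of_subset_of_nonneg
    · intro k hk
      rw [Finset.mem_Icc] at hk
      rw [Finset.mem_range]
      omega
    · intro k _ _
      split_ifs <;> positivity
  have h7 : ((Icc 1 Q).card : ℝ) * (ε * H) ≤ ε * (N + H) := by
    rw [Nat.card_Icc, Nat.add_sub_cancel]
    have h8 : Q * H ≤ N + s := Nat.div_mul_le_self _ _
    have h9 : Q * H ≤ N + H := by omega
    have h10 : (Q:ℝ) * H ≤ N + H := by exact_mod_cast h9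
    calc (Q:ℝ) * (ε * H) = ε * (Q * H) := by ring
      _ ≤ ε * (N + H) := by gcongr
  have h8 : (if Q ∈ Icc 1 Q then (H:ℝ) else 0) ≤ H := by
    split_ifs
    · exact le_rfl
    · exact hH'.le
  linarith

/-- every `n` is in the class of exactly one shift -/
lemma sum_shifts (f : ℕ → ℝ) (N H : ℕ) (hH : 0 < H) :
    ∑ n ∈ Ico 1 N, f n = ∑ s ∈ range H, ∑ n ∈ (Ico 1 N).filter (fun n => H ∣ n + s), f n := by
  have h1 : ∀ n, (H - n % H) % H < H := fun n => Nat.mod_lt _ hH
  rw [← Finset.sum_fiberwise_of_maps_to (s := Ico 1 N) (t := range H) (g := fun n => (H - n % H) % H)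
    (fun n _ => Finset.mem_range.mpr (h1 n))]
  refine Finset.sum_congr rfl (fun s hs => Finset.sum_congr ?_ (fun _ _ => rfl))
  rw [Finset.mem_range] at hs
  ext n
  rw [Finset.mem_filter, Finset.mem_filter]
  refine and_congr_right (fun _ => ?_)
  have h2 : n % H < H := Nat.mod_lt _ hH
  have h3 : n % H + H * (n / H) = n := Nat.mod_add_div n H
  constructor
  · intro h4
    rcases Nat.eq_zero_or_pos (n % H) with h5 | h5
    · rw [h5, Nat.sub_zero, Nat.mod_self] at h4
      rw [← h4, Nat.add_zero]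
      exact Nat.dvd_of_mod_eq_zero h5
    · rw [Nat.mod_eq_of_lt (by omega)] at h4
      refine ⟨n / H + 1, ?_⟩
      rw [mul_add, mul_one]
      omega
  · rintro ⟨c, hc⟩
    rcases Nat.eq_zero_or_pos (n % H) with h5 | h5
    · have h6 : H ∣ s := by
        have : H ∣ n := Nat.dvd_of_mod_eq_zero h5
        exact (Nat.dvd_add_right this).mp ⟨c, hc⟩
      have h7 : s = 0 := Nat.eq_zero_of_dvd_of_lt h6 hs
      rw [h5, h7]; simp
    · rw [Nat.mod_eq_of_lt (by omega)]
      have h6 : H * c = H * (n / H) + (n % H + s) := by omega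
      have h7 : H ∣ n % H + s := (Nat.dvd_add_right (Dvd.intro _ rfl)).mp ⟨c, h6.symm⟩
      obtain ⟨d, hd⟩ := h7
      have h8 : 0 < d := by
        rcases Nat.eq_zero_or_pos d with h9 | h9
        · rw [h9, mul_zero] at hd; omega
        · exact h9
      have h9 : d < 2 := by
        by_contra h10
        push Not at h10
        have : H * 2 ≤ H * d := Nat.mul_le_mul_left H h10
        omega
      have h10 : d = 1 := by omega
      rw [h10, mul_one] at hd
      omega

theorem t_F : P_F := by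
  intro hC h hM hE η hη ε hε
  obtain ⟨H0, hH0⟩ := hC h hM hE η hη (ε / 4) (by positivity)
  refine ⟨max H0 1, fun H hH => ?_⟩
  obtain ⟨N0, hN0⟩ := hH0 H ((le_max_left _ _).trans hH)
  have hH1 : 1 ≤ H := (le_max_right _ _).trans hH
  have hH' : (0:ℝ) < H := by exact_mod_cast hH1
  obtain ⟨N1, hN1⟩ := exists_nat_ge (((ε / 4 + 1) * H + 1) / (ε / 2))
  refine ⟨max N0 (max N1 1), fun N hN A hA a ha => ?_⟩
  have hNN0 : N0 ≤ N := (le_max_left _ _).trans hN
  have hNN1 : N1 ≤ N := (le_max_left _ _).trans ((le_max_right _ _).trans hN)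
  have hNN2 : 1 ≤ N := (le_max_right _ _).trans ((le_max_right _ _).trans hN)
  have h1 : ∀ s ∈ range H, ∑ n ∈ (Ico 1 N).filter (fun n => H ∣ n + s),
      ‖∑ i ∈ range H, h (n + i) * ee ((i : ℝ) * a n)‖ ≤ ε / 4 * N + (ε / 4 * (N + H) + H) := by
    intro s hs
    rw [Finset.mem_range] at hs
    apply shift_bound hM.1 (by positivity) hs
    intro om al h2 h3 h4 h5
    refine hN0 N hNN0 A hA s hs om al h2 h3 ?_ h5
    intro k
    obtain ⟨n, hn⟩ := h4 k
    rw [hn]
    exact ha n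
  have h2 : ∑ n ∈ range N, ‖∑ i ∈ range H, h (n + i) * ee ((i : ℝ) * a n)‖ =
      ‖∑ i ∈ range H, h (0 + i) * ee ((i : ℝ) * a 0)‖ +
      ∑ n ∈ Ico 1 N, ‖∑ i ∈ range H, h (n + i) * ee ((i : ℝ) * a n)‖ := by
    rw [Finset.range_eq_Ico, Finset.sum_eq_sum_Ico_succ_bot (by omega)]
  have h3 : ‖∑ i ∈ range H, h (0 + i) * ee ((i : ℝ) * a 0)‖ ≤ H := by
    refine (norm_sum_le _ _).trans ?_
    calc ∑ i ∈ range H, ‖h (0 + i) * ee ((i : ℝ) * a 0)‖ ≤ ∑ _i ∈ range H, (1:ℝ) := by
          refine Finset.sum_le_sum (fun i _ => ?_)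
          rw [norm_mul, norm_ee, mul_one]
          exact hM.1 _
      _ = H := by simp
  rw [h2, sum_shifts _ N H hH1]
  have h4 := Finset.sum_le_sum h1
  rw [Finset.sum_const, Finset.card_range, nsmul_eq_mul] at h4
  have h5 : ((ε / 4 + 1) * H + 1) / (ε / 2) ≤ N := hN1.trans (by exact_mod_cast hNN1)
  rw [div_le_iff₀ (by positivity)] at h5
  have h6 : (H:ℝ) * (ε / 4 * N + (ε / 4 * (N + H) + H)) + H ≤ ε * H * N := by
    have : (H:ℝ) * ((ε / 4 + 1) * H + 1) ≤ H * (N * (ε / 2)) := by gcongr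
    nlinarith
  linarith

end Pool.Agent.U147.NF.F
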