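import Pool.Agent.U237.NF.Lite

/-!
# Project NF, package K: the criterion of Kátai in dyadic blocks of primes
-/

set_option autoImplicit false

open Finset Filter Topology

namespace Pool.Agent.U147.NF.K

open Pool.Agent.W24.Katai
open Pool.Agent.U237.NF.Lite (PB S_K)

lemma PB_prime (y : ℕ) : ∀ p ∈ PB y, p.Prime := fun _ hp => (Finset.mem_filter.mp hp).2

lemma PB_bd {y p : ℕ} (hp : p ∈ PB y) : y < p ∧ p ≤ 2 * y := by
  have := (Finset.mem_filter.mp hp).1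
  rwa [Finset.mem_Ioc] at this

/-- sums over the primes in `(2 ^ a, 2 ^ b]` split into the dyadic blocks -/
lemma sum_blocks {M : Type*} [AddCommMonoid M] (f : ℕ → M) (a b : ℕ) (hab : a ≤ b) :
    ∑ p ∈ (Ioc (2 ^ a) (2 ^ b)).filter Nat.Prime, f p = ∑ k ∈ Ico a b, ∑ p ∈ PB (2 ^ k), f p := by
  induction b, hab using Nat.le_induction with
  | base => simp
  | succ b hb ih =>
    rw [Finset.sum_Ico_succ_top hb, ← ih]
    unfold PB
    rw [Finset.sum_filter, Finset.sum_filter, Finset.sum_filter, ← Finset.sum_Ioc_consecutive (n := 2 ^ b)]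
    · rw [pow_succ, mul_comm (2 ^ b) 2]
    · exact Nat.pow_le_pow_right (by norm_num) hb
    · exact Nat.pow_le_pow_right (by norm_num) (Nat.le_succ b)

lemma exists_k1 (T : ℝ) (k0 : ℕ) : ∃ k1 : ℕ, k0 ≤ k1 ∧ T ≤ SS ((Ioc (2 ^ k0) (2 ^ k1)).filter Nat.Prime) := by
  set A := (Ioc 0 (2 ^ k0)).filter Nat.Prime with hA
  obtain ⟨P, hP, hS⟩ := exists_SS (T + SS A)
  refine ⟨max k0 (P.sup id), le_max_left _ _, ?_⟩
  have hsub : P ⊆ A ∪ (Ioc (2 ^ k0) (2 ^ (max k0 (P.sup id)))).filter Nat.Prime := by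
    intro p hp
    have h1 : p ≤ P.sup id := Finset.le_sup (f := id) hp
    have h2 : p < 2 ^ p := Nat.lt_two_pow_self
    have h3 : 2 ^ p ≤ 2 ^ (max k0 (P.sup id)) :=
      Nat.pow_le_pow_right (by norm_num) (h1.trans (le_max_right _ _))
    rw [Finset.mem_union]
    by_cases h : p ≤ 2 ^ k0
    · left
      exact Finset.mem_filter.mpr ⟨Finset.mem_Ioc.mpr ⟨(hP p hp).pos, h⟩, hP p hp⟩
    · right
      exact Finset.mem_filter.mpr ⟨Finset.mem_Ioc.mpr ⟨not_le.mp h, by omega⟩, hP p hp⟩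
  have h1 : SS P ≤ SS A + SS ((Ioc (2 ^ k0) (2 ^ (max k0 (P.sup id)))).filter Nat.Prime) := by
    unfold SS
    refine (Finset.sum_le_sum_of_subset_of_nonneg hsub (fun _ _ _ => by positivity)).trans ?_
    rw [← Finset.sum_union_inter]
    have : (0:ℝ) ≤ ∑ x ∈ A ∩ (Ioc (2 ^ k0) (2 ^ (max k0 (P.sup id)))).filter Nat.Prime, 1 / (x:ℝ) :=
      Finset.sum_nonneg (fun _ _ => by positivity)
    linarith
  linarith

/-- the sum of the squares is at most the sum of the correlations -/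
lemma sq_le_cor {P : Finset ℕ} (hP : ∀ p ∈ P, p.Prime) {F : ℕ → ℂ}
    {g : ℕ → ℂ} (hg : Mul1 g) (N : ℕ) :
    ∑ m ∈ Ioc 0 N, ‖∑ p ∈ P, (if p * m ≤ N then g p * F (p * m) else 0)‖^2 ≤
      ∑ p ∈ P, ∑ q ∈ P, ‖cor F p q (min (N / p) (N / q))‖ := by
  set c : ℕ → ℕ → ℂ := fun p m => if p * m ≤ N then g p * F (p * m) else 0 with hcdef
  have e1 : ∀ m, ((‖∑ p ∈ P, c p m‖^2 : ℝ) : ℂ) = ∑ p ∈ P, ∑ q ∈ P, c p m * (starRingEnd ℂ) (c q m) := by
    intro m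
    rw [← Finset.sum_mul_sum, ← map_sum, Complex.mul_conj, Complex.normSq_eq_norm_sq]
  have e2 : ((∑ m ∈ Ioc 0 N, ‖∑ p ∈ P, c p m‖^2 : ℝ) : ℂ) =
      ∑ p ∈ P, ∑ q ∈ P, ∑ m ∈ Ioc 0 N, c p m * (starRingEnd ℂ) (c q m) := by
    rw [Complex.ofReal_sum]
    rw [Finset.sum_congr rfl (fun m _ => e1 m), Finset.sum_comm]
    apply Finset.sum_congr rfl
    intro p _
    rw [Finset.sum_comm]
  have e3 : ∀ p ∈ P, ∀ q ∈ P, ‖∑ m ∈ Ioc 0 N, c p m * (starRingEnd ℂ) (c q m)‖ ≤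
      ‖cor F p q (min (N / p) (N / q))‖ := by
    intro p hp q hq
    have hp0 := (hP p hp).pos
    have hq0 := (hP q hq).pos
    have e4 : ∑ m ∈ Ioc 0 N, c p m * (starRingEnd ℂ) (c q m) =
        g p * (starRingEnd ℂ) (g q) * cor F p q (min (N / p) (N / q)) := by
      unfold cor
      rw [Finset.mul_sum]
      have hsub : Ioc 0 (min (N / p) (N / q)) ⊆ Ioc 0 N :=
        Finset.Ioc_subset_Ioc_right ((min_le_left _ _).trans (Nat.div_le_self _ _))
      rw [← Finset.sum_subset hsub]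
      · apply Finset.sum_congr rfl
        intro m hm
        rw [Finset.mem_Ioc, le_min_iff] at hm
        have h1 : p * m ≤ N := by rw [mul_comm]; exact (Nat.le_div_iff_mul_le hp0).mp hm.2.1
        have h2 : q * m ≤ N := by rw [mul_comm]; exact (Nat.le_div_iff_mul_le hq0).mp hm.2.2
        simp only [hcdef]
        rw [if_pos h1, if_pos h2, map_mul]; ring
      · intro m hm hm'
        rw [Finset.mem_Ioc] at hm hm'
        simp only [hcdef]
        by_cases h1 : p * m ≤ N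
        · by_cases h2 : q * m ≤ N
          · exfalso
            apply hm'
            refine ⟨hm.1, le_min ?_ ?_⟩
            · exact (Nat.le_div_iff_mul_le hp0).mpr (by rw [mul_comm]; exact h1)
            · exact (Nat.le_div_iff_mul_le hq0).mpr (by rw [mul_comm]; exact h2)
          · rw [if_neg h2, map_zero, mul_zero]
        · rw [if_neg h1, zero_mul]
    rw [e4, norm_mul, norm_mul, RCLike.norm_conj]
    have e5 : ‖g p‖ * ‖g q‖ * ‖cor F p q (min (N / p) (N / q))‖ ≤ 1 * 1 * ‖cor F p q (min (N / p) (N / q))‖ := by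
      gcongr
      · exact hg.1 p
      · exact hg.1 q
    refine e5.trans ?_
    rw [one_mul, one_mul]
  have e9 : (∑ m ∈ Ioc 0 N, ‖∑ p ∈ P, c p m‖^2 : ℝ) =
      ‖((∑ m ∈ Ioc 0 N, ‖∑ p ∈ P, c p m‖^2 : ℝ) : ℂ)‖ := by
    rw [Complex.norm_real, Real.norm_eq_abs, abs_of_nonneg]
    exact Finset.sum_nonneg (fun m _ => by positivity)
  rw [e9, e2]
  refine (norm_sum_le _ _).trans ?_
  exact Finset.sum_le_sum (fun p hp => (norm_sum_le _ _).trans (Finset.sum_le_sum (fun q hq => e3 p hp q hq)))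

/-- Cauchy–Schwarz in one block -/
lemma block {F : ℕ → ℂ} {g : ℕ → ℂ} (hg : Mul1 g) (N y : ℕ) (hy : 1 ≤ y) :
    ‖∑ p ∈ PB y, ∑ m ∈ Ioc 0 (N / p), g p * g m * F (p * m)‖ ^ 2 ≤
      (N : ℝ) / y * ∑ p ∈ PB y, ∑ q ∈ PB y, ‖cor F p q (min (N / p) (N / q))‖ := by
  rw [step3 (PB_prime y)]
  have h1 : ∑ m ∈ Ioc 0 N, g m * ∑ p ∈ PB y, (if p * m ≤ N then g p * F (p * m) else 0) =
      ∑ m ∈ Ioc 0 (N / y), g m * ∑ p ∈ PB y, (if p * m ≤ N then g p * F (p * m) else 0) := by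
    symm
    apply Finset.sum_subset (Finset.Ioc_subset_Ioc_right (Nat.div_le_self _ _))
    intro m hm hm'
    rw [Finset.mem_Ioc] at hm hm'
    have h2 : N / y < m := by
      by_contra h
      exact hm' ⟨hm.1, not_lt.mp h⟩
    rw [Finset.sum_eq_zero, mul_zero]
    intro p hp
    rw [if_neg]
    intro h3
    have h4 : y * m ≤ N := (Nat.mul_le_mul_right m (PB_bd hp).1.le).trans h3
    have h5 : m ≤ N / y := (Nat.le_div_iff_mul_le (by omega)).mpr (by rw [mul_comm]; exact h4)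
    omega
  rw [h1]
  have e1 : ‖∑ m ∈ Ioc 0 (N / y), g m * ∑ p ∈ PB y, (if p * m ≤ N then g p * F (p * m) else 0)‖ ≤
      ∑ m ∈ Ioc 0 (N / y), ‖∑ p ∈ PB y, (if p * m ≤ N then g p * F (p * m) else 0)‖ := by
    refine (norm_sum_le _ _).trans (Finset.sum_le_sum (fun m _ => ?_))
    rw [norm_mul]
    calc _ ≤ 1 * ‖∑ p ∈ PB y, (if p * m ≤ N then g p * F (p * m) else 0)‖ := by
          gcongr; exact hg.1 m
      _ = _ := one_mul _
  refine (pow_le_pow_left₀ (norm_nonneg _) e1 2).trans ?_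
  refine sq_sum_le_card_mul_sum_sq.trans ?_
  rw [Nat.card_Ioc, Nat.sub_zero]
  have e2 : ((N / y : ℕ) : ℝ) ≤ (N : ℝ) / y := Nat.cast_div_le
  have e3 : ∑ m ∈ Ioc 0 (N / y), ‖∑ p ∈ PB y, (if p * m ≤ N then g p * F (p * m) else 0)‖ ^ 2 ≤
      ∑ p ∈ PB y, ∑ q ∈ PB y, ‖cor F p q (min (N / p) (N / q))‖ := by
    refine le_trans ?_ (sq_le_cor (PB_prime y) hg N)
    exact Finset.sum_le_sum_of_subset_of_nonneg (Finset.Ioc_subset_Ioc_right (Nat.div_le_self _ _))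
      (fun _ _ _ => by positivity)
  have e4 : (0:ℝ) ≤ ∑ m ∈ Ioc 0 (N / y), ‖∑ p ∈ PB y, (if p * m ≤ N then g p * F (p * m) else 0)‖ ^ 2 :=
    Finset.sum_nonneg (fun _ _ => by positivity)
  exact mul_le_mul e2 e3 e4 (by positivity)

lemma SS_PB (y : ℕ) (hy : 1 ≤ y) : ((PB y).card : ℝ) / (2 * y) ≤ SS (PB y) := by
  unfold SS
  have hy0 : (0:ℝ) < y := by exact_mod_cast hy
  calc ((PB y).card : ℝ) / (2 * y) = ∑ p ∈ PB y, 1 / (2 * (y:ℝ)) := by
        rw [Finset.sum_const, nsmul_eq_mul]; ring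
    _ ≤ _ := by
        refine Finset.sum_le_sum (fun p hp => ?_)
        have h1 := PB_bd hp
        have h2 : (p:ℝ) ≤ 2 * y := by exact_mod_cast h1.2
        have h3 : (0:ℝ) < p := by
          have : 0 < p := by omega
          exact_mod_cast this
        exact one_div_le_one_div_of_le h3 h2

theorem t_K : S_K := by
  intro ε hε k0
  obtain ⟨k1, hk, hT⟩ := exists_k1 (max 1 (64 / ε ^ 2 + 8 / ε)) k0
  set P := (Ioc (2 ^ k0) (2 ^ k1)).filter Nat.Prime with hPdef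
  have hP : ∀ p ∈ P, p.Prime := fun p hp => (Finset.mem_filter.mp hp).2
  set S := SS P with hS
  have hS1 : 1 ≤ S := (le_max_left _ _).trans hT
  have hS2 : 64 / ε ^ 2 + 8 / ε ≤ S := (le_max_right _ _).trans hT
  have hS0 : 0 < S := by linarith
  set c : ℝ := (P.card : ℝ) with hc
  have hc0 : 0 ≤ c := Nat.cast_nonneg _
  obtain ⟨N2, hN2⟩ := exists_nat_ge (2 * c)
  refine ⟨k1, max 1 N2, fun N hN F g hF hg hbig => ?_⟩
  have hN1 : 1 ≤ N := (le_max_left _ _).trans hN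
  have hN1' : (0:ℝ) < N := by exact_mod_cast hN1
  have hNN2 : 2 * c ≤ N := hN2.trans (by exact_mod_cast (le_max_right _ _).trans hN)
  have s1 := step1 hP hF hg N
  have s2 := step2 hP hF hg N
  have s6 := sum_inv_sq_le hP
  rw [← hS, ← hc] at s1
  have r1 : √(N * (N * S + 2 * S * c)) ≤ 2 * √S * N := by
    rw [Real.sqrt_le_left (by positivity)]
    have : (2 * √S * N)^2 = 4 * S * N^2 := by
      rw [mul_pow, mul_pow, Real.sq_sqrt hS0.le]; ring
    rw [this]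
    have : 2 * S * c ≤ S * N := by nlinarith
    nlinarith [mul_le_mul_of_nonneg_left this hN1'.le, mul_nonneg hS0.le (sq_nonneg (N:ℝ))]
  have hsq : 2 * √S ≤ ε / 4 * S := by
    have h1 : 8 / ε ≤ √S := by
      apply Real.le_sqrt_of_sq_le
      have : (8 / ε) ^ 2 = 64 / ε ^ 2 := by rw [div_pow]; norm_num
      rw [this]
      have : 0 < 8 / ε := by positivity
      linarith
    have h2 : √S * √S = S := Real.mul_self_sqrt hS0.le
    have h3 : ε / 4 * S = ε / 4 * √S * √S := by rw [mul_assoc, h2]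
    rw [h3]
    have h4 : 2 ≤ ε / 4 * √S := by
      have : ε / 4 * (8 / ε) ≤ ε / 4 * √S := by gcongr
      have h5 : ε / 4 * (8 / ε) = 2 := by field_simp; norm_num
      linarith
    exact mul_le_mul_of_nonneg_right h4 (Real.sqrt_nonneg _)
  have h8 : 2 ≤ ε / 4 * S := by
    have h1 : 8 / ε ≤ S := by
      have : 0 < 64 / ε ^ 2 := by positivity
      linarith
    have : ε / 4 * (8 / ε) ≤ ε / 4 * S := by gcongr
    have h5 : ε / 4 * (8 / ε) = 2 := by field_simp; norm_num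
    linarith
  have t1 : ‖(S : ℂ) * ∑ n ∈ Ioc 0 N, g n * F n‖ ≤ 2 * √S * N + 2 * N +
      ‖∑ p ∈ P, ∑ m ∈ Ioc 0 (N / p), g p * g m * F (p * m)‖ := by
    have e1 : (S : ℂ) * ∑ n ∈ Ioc 0 N, g n * F n =
        ((S : ℂ) * ∑ n ∈ Ioc 0 N, g n * F n - ∑ p ∈ P, ∑ m ∈ Ioc 0 (N / p), g (p * m) * F (p * m)) +
        (∑ p ∈ P, ∑ m ∈ Ioc 0 (N / p), g (p * m) * F (p * m) -
      ∑ p ∈ P, ∑ m ∈ Ioc 0 (N / p), g p * g m * F (p * m)) +
        ∑ p ∈ P, ∑ m ∈ Ioc 0 (N / p), g p * g m * F (p * m) := by ring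
    rw [e1]
    refine (norm_add_le _ _).trans ?_
    refine (add_le_add (norm_add_le _ _) le_rfl).trans ?_
    have : 2 * (N:ℝ) * ∑ p ∈ P, 1 / (p:ℝ)^2 ≤ 2 * N * 1 := by gcongr
    linarith
  rw [norm_mul, Complex.norm_real, Real.norm_eq_abs, abs_of_pos hS0] at t1
  have t2 : ε / 2 * N * S ≤ ‖∑ p ∈ P, ∑ m ∈ Ioc 0 (N / p), g p * g m * F (p * m)‖ := by
    have h1 : S * (ε * N) ≤ S * ‖∑ n ∈ Ioc 0 N, g n * F n‖ := by gcongr
    have h2 : 2 * √S * N ≤ ε / 4 * S * N := by gcongr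
    have h3 : 2 * (N:ℝ) ≤ ε / 4 * S * N := by gcongr
    linarith
  -- split into blocks
  rw [hPdef, sum_blocks _ k0 k1 hk] at t2
  have hSsum : S = ∑ k ∈ Ico k0 k1, SS (PB (2 ^ k)) := by
    rw [hS, hPdef]
    unfold SS
    exact sum_blocks _ k0 k1 hk
  have t3 : ∑ k ∈ Ico k0 k1, ε / 2 * N * SS (PB (2 ^ k)) ≤
      ∑ k ∈ Ico k0 k1, ‖∑ p ∈ PB (2 ^ k), ∑ m ∈ Ioc 0 (N / p), g p * g m * F (p * m)‖ := by
    rw [← Finset.mul_sum, ← hSsum]
    exact t2.trans (norm_sum_le _ _)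
  have hne : (Ico k0 k1).Nonempty := by
    by_contra h
    rw [Finset.not_nonempty_iff_eq_empty] at h
    rw [h, Finset.sum_empty] at hSsum
    linarith
  obtain ⟨k, hkm, hk3⟩ := Finset.exists_le_of_sum_le hne t3
  rw [Finset.mem_Ico] at hkm
  refine ⟨k, hkm.1, hkm.2, ?_⟩
  have hy : 1 ≤ 2 ^ k := Nat.one_le_two_pow
  have hb := block (F := F) hg N (2 ^ k) hy
  have hb2 := SS_PB (2 ^ k) hy
  push_cast at hb hb2
  have hpow : (0:ℝ) < 2 ^ k := by positivity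
  have h5 : ε / 2 * N * (((PB (2 ^ k)).card : ℝ) / (2 * 2 ^ k)) ≤
      ‖∑ p ∈ PB (2 ^ k), ∑ m ∈ Ioc 0 (N / p), g p * g m * F (p * m)‖ :=
    le_trans (by gcongr) hk3
  have h6 : (ε / 2 * N * (((PB (2 ^ k)).card : ℝ) / (2 * 2 ^ k))) ^ 2 ≤
      (N : ℝ) / 2 ^ k * ∑ p ∈ PB (2 ^ k), ∑ q ∈ PB (2 ^ k), ‖cor F p q (min (N / p) (N / q))‖ :=
    (pow_le_pow_left₀ (by positivity) h5 2).trans hb
  have h7 : (ε / 2 * N * (((PB (2 ^ k)).card : ℝ) / (2 * 2 ^ k))) ^ 2 =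
      (N : ℝ) / 2 ^ k * (ε ^ 2 / 16 * ((PB (2 ^ k)).card : ℝ) ^ 2 * ((N : ℝ) / 2 ^ k)) := by
    field_simp
    ring
  rw [h7] at h6
  exact le_of_mul_le_mul_left h6 (by positivity)

end Pool.Agent.U147.NF.K
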